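import Pool.Agent.H380.AG.Stm

/-!
The sphere lemma `S_A` from `S_A1` and `S_A2` (helper249, for helper380).
-/

set_option autoImplicit false

open MeasureTheory Metric Set Filter Topology
open scoped ENNReal RealInnerProductSpace

namespace Pool.Agent.H249.AG

open Pool.Agent.W778.AG Pool.Agent.H380.AG

theorem t_A (h1 : S_A1) (h2 : S_A2) : S_A := by
  intro n q J α Γ η' η μ D F hn hα hα' hcos hP hΓ hI1 hI2 hη' hη hS hD hpk hF hFs hμF hlt
  by_contra hcon
  have hne : ∀ i j : Fin J, i < j → ∀ u ∈ F i, ∀ v ∈ F j, ⟪u, v⟫ ≠ Real.cos α := by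
    intro i j hij u hu v hv he
    exact hcon ⟨i, j, hij, u, hu, v, hv, he⟩
  have hR : Tendsto (fun r : ℝ => ∑ i, ∑ j ∈ Finset.univ.filter (fun j => i < j),
      ∑' k : ℕ, r ^ k * dk n k * (Pg n k (Real.cos α) * fm n k (μ i) (μ j))) (𝓝[<] 1)
      (𝓝 (∑ i : Fin J, ∑ j ∈ Finset.univ.filter (fun j : Fin J => i < j), (0 : ℝ))) := by
    refine tendsto_finsetSum _ fun i _ => tendsto_finsetSum _ fun j hj => ?_
    exact h1 n α (μ i) (μ j) (F i) (F j) hn hα hα' (hS i) (hS j) (hF i) (hF j) (hFs i) (hFs j)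
      (hμF i) (hμF j) (hne i j (Finset.mem_filter.1 hj).2)
  have hL : Tendsto (fun r : ℝ => (J : ℝ) * (J - 1) / 2 - (η' + J * η) / 2 * ∑ i, D i +
      ∑ i, ∑ j ∈ Finset.univ.filter (fun j => i < j),
        ∑ k ∈ (Finset.range (2 * q)).filter (fun k => Odd k),
          r ^ k * (dk n k * Pg n k (Real.cos α) * fm n k (μ i) (μ j))) (𝓝[<] 1)
      (𝓝 ((J : ℝ) * (J - 1) / 2 - (η' + J * η) / 2 * ∑ i, D i +
        ∑ i, ∑ j ∈ Finset.univ.filter (fun j => i < j), Of n q α (μ i) (μ j))) := by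
    have hc : Continuous (fun r : ℝ => (J : ℝ) * (J - 1) / 2 - (η' + J * η) / 2 * ∑ i, D i +
        ∑ i, ∑ j ∈ Finset.univ.filter (fun j => i < j),
          ∑ k ∈ (Finset.range (2 * q)).filter (fun k => Odd k),
            r ^ k * (dk n k * Pg n k (Real.cos α) * fm n k (μ i) (μ j))) := by
      refine continuous_const.add ?_
      refine continuous_finsetSum _ fun i _ => continuous_finsetSum _ fun j _ =>
        continuous_finsetSum _ fun k _ => ?_
      exact (continuous_pow k).mul continuous_const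
    have h3 := (hc.tendsto 1).mono_left (nhdsWithin_le_nhds (s := Iio (1 : ℝ)))
    have h4 : (J : ℝ) * (J - 1) / 2 - (η' + J * η) / 2 * ∑ i, D i +
        ∑ i, ∑ j ∈ Finset.univ.filter (fun j => i < j), Of n q α (μ i) (μ j) =
        (J : ℝ) * (J - 1) / 2 - (η' + J * η) / 2 * ∑ i, D i +
        ∑ i, ∑ j ∈ Finset.univ.filter (fun j => i < j),
          ∑ k ∈ (Finset.range (2 * q)).filter (fun k => Odd k),
            (1 : ℝ) ^ k * (dk n k * Pg n k (Real.cos α) * fm n k (μ i) (μ j)) := by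
      simp only [one_pow, one_mul, Of]
    rw [h4]
    exact h3
  have hev : ∀ᶠ r : ℝ in 𝓝[<] 1, (J : ℝ) * (J - 1) / 2 - (η' + J * η) / 2 * ∑ i, D i +
      ∑ i, ∑ j ∈ Finset.univ.filter (fun j => i < j),
        ∑ k ∈ (Finset.range (2 * q)).filter (fun k => Odd k),
          r ^ k * (dk n k * Pg n k (Real.cos α) * fm n k (μ i) (μ j)) ≤
      ∑ i, ∑ j ∈ Finset.univ.filter (fun j => i < j),
        ∑' k : ℕ, r ^ k * dk n k * (Pg n k (Real.cos α) * fm n k (μ i) (μ j)) := by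
    have h5 : Ioo (0 : ℝ) 1 ∈ 𝓝[<] (1 : ℝ) := Ioo_mem_nhdsLT one_pos
    filter_upwards [h5] with r hr
    exact h2 n q J α Γ η' η μ D r hn hα hα' hcos hP hΓ hI1 hI2 hη' hη hS hD hpk hr
  have hle := le_of_tendsto_of_tendsto hL hR hev
  simp only [Finset.sum_const_zero] at hle
  linarith

end Pool.Agent.H249.AG
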